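import Pool.Agent.Lib.MP_144d21_co.PSI.Iface

/-! # DUALF: a functional with prescribed values -/

set_option autoImplicit false

namespace Pool.Agent.Xu.H50

open Finset

theorem dualf : DualfS := by
  classical
  intro F _ K V _ _ w Z y hy
  let T : (K → F) →ₗ[F] ((V → F) × (K → F)) :=
    { toFun := fun x => (fun v => ∑ D, x D * w D v, fun D => if D ∈ Z then x D else 0)
      map_add' := by
        intro a b
        refine Prod.ext ?_ ?_
        · funext v
          show ∑ D, (a D + b D) * w D v = ∑ D, a D * w D v + ∑ D, b D * w D v
          rw [← sum_add_distrib]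
          exact sum_congr rfl fun D _ => add_mul _ _ _
        · funext D
          show (if D ∈ Z then a D + b D else 0) = (if D ∈ Z then a D else 0) +
            (if D ∈ Z then b D else 0)
          split_ifs <;> simp
      map_smul' := by
        intro r a
        refine Prod.ext ?_ ?_
        · funext v
          show ∑ D, (r * a D) * w D v = r * ∑ D, a D * w D v
          rw [mul_sum]
          exact sum_congr rfl fun D _ => mul_assoc _ _ _
        · funext D
          show (if D ∈ Z then r * a D else 0) = r * (if D ∈ Z then a D else 0)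
          split_ifs <;> simp }
  let φ : (K → F) →ₗ[F] F :=
    { toFun := fun x => ∑ D, x D * y D
      map_add' := by
        intro a b
        show ∑ D, (a D + b D) * y D = _
        rw [← sum_add_distrib]
        exact sum_congr rfl fun D _ => add_mul _ _ _
      map_smul' := by
        intro r a
        show ∑ D, (r * a D) * y D = r * ∑ D, a D * y D
        rw [mul_sum]
        exact sum_congr rfl fun D _ => mul_assoc _ _ _ }
  have hker : φ ∈ (LinearMap.ker T).dualAnnihilator := by
    rw [Submodule.mem_dualAnnihilator]
    intro x hx
    rw [LinearMap.mem_ker] at hx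
    apply hy
    refine ⟨fun D hD => ?_, fun v => ?_⟩
    · have h : (T x).2 D = 0 := by rw [hx]; rfl
      have h' : (if D ∈ Z then x D else 0) = 0 := h
      rwa [if_pos hD] at h'
    · have h : (T x).1 v = 0 := by rw [hx]; rfl
      exact h
  rw [← LinearMap.range_dualMap_eq_dualAnnihilator_ker] at hker
  obtain ⟨ψ, hψ⟩ := hker
  refine ⟨fun v => ψ (Pi.single v 1, 0), fun D hD => ?_⟩
  have h1 : ψ (T (Pi.single D 1)) = φ (Pi.single D 1) := by
    rw [← hψ]; rfl
  have h2 : φ (Pi.single D 1) = y D := by
    show ∑ D', (Pi.single D (1 : F) : K → F) D' * y D' = y D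
    rw [sum_eq_single D]
    · simp
    · intro b _ hb
      rw [Pi.single_eq_of_ne hb, zero_mul]
    · simp
  have h3 : T (Pi.single D 1) = (w D, 0) := by
    refine Prod.ext ?_ ?_
    · funext v
      show ∑ D', (Pi.single D (1 : F) : K → F) D' * w D' v = w D v
      rw [sum_eq_single D]
      · simp
      · intro b _ hb
        rw [Pi.single_eq_of_ne hb, zero_mul]
      · simp
    · funext D'
      show (if D' ∈ Z then (Pi.single D (1 : F) : K → F) D' else 0) = 0
      split_ifs with h
      · have hne : D' ≠ D := fun e => hD (e ▸ h)
        rw [Pi.single_eq_of_ne hne]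
      · rfl
  have h4 : (w D, (0 : K → F)) = ∑ v, w D v • ((Pi.single v (1 : F) : V → F), (0 : K → F)) := by
    refine Prod.ext ?_ ?_
    · rw [Prod.fst_sum]
      funext v
      rw [Finset.sum_apply]
      show w D v = ∑ v', w D v' * (Pi.single v' (1 : F) : V → F) v
      rw [sum_eq_single v]
      · simp
      · intro b _ hb
        rw [Pi.single_eq_of_ne (Ne.symm hb), mul_zero]
      · simp
    · rw [Prod.snd_sum]
      simp
  rw [h3, h4, map_sum, h2] at h1
  rw [← h1]
  refine sum_congr rfl fun v _ => ?_
  rw [map_smul, smul_eq_mul, mul_comm]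

end Pool.Agent.Xu.H50
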