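import Pool.Agent.Lib.MP_144d21_co.PSI.Iface

/-! # EXT: extension of a triangular family of functionals to a basis -/

set_option autoImplicit false

namespace Pool.Agent.Xu.H50

open Finset

theorem extend_indep {F E : Type} [Field F] [AddCommGroup E] [Module F E] [FiniteDimensional F E]
    (n : ℕ) (hn : Module.finrank F E = n) : ∀ (d m : ℕ) (s : ℕ → E), m + d = n →
    LinearIndependent F (fun k : Fin m => s k) →
    ∃ f : ℕ → E, (∀ k < m, f k = s k) ∧ LinearIndependent F (fun k : Fin n => f k) := by
  intro d
  induction d with
  | zero =>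
    intro m s hm hs
    have hm' : m = n := by omega
    subst hm'
    exact ⟨s, fun k _ => rfl, hs⟩
  | succ d ih =>
    intro m s hm hs
    have hx : ∃ x : E, x ∉ Submodule.span F (Set.range fun k : Fin m => s k) := by
      by_contra hcon
      push Not at hcon
      have htop : Submodule.span F (Set.range fun k : Fin m => s k) = ⊤ := by
        rw [eq_top_iff]
        intro x _
        exact hcon x
      have h1 := finrank_range_le_card (R := F) (fun k : Fin m => s k)
      rw [Set.finrank, htop, finrank_top, hn, Fintype.card_fin] at h1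
      omega
    obtain ⟨x, hx⟩ := hx
    have hs' : LinearIndependent F (fun k : Fin (m + 1) => (Function.update s m x) k) := by
      have e : (fun k : Fin (m + 1) => (Function.update s m x) k) =
          Fin.snoc (fun k : Fin m => s k) x := by
        funext k
        refine Fin.lastCases ?_ (fun k => ?_) k
        · rw [Fin.snoc_last]
          simp
        · rw [Fin.snoc_castSucc]
          show Function.update s m x (k : ℕ) = s k
          rw [Function.update_of_ne (by have := k.2; omega)]
      rw [e, linearIndependent_finSnoc]
      exact ⟨hs, hx⟩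
    obtain ⟨f, hf, hf'⟩ := ih (m + 1) (Function.update s m x) (by omega) hs'
    refine ⟨f, fun k hk => ?_, hf'⟩
    rw [hf k (by omega), Function.update_of_ne (by omega)]

theorem ext : ExtS := by
  classical
  intro F _ K V _ _ _ w m s i him hsurj htri
  have hind : LinearIndependent F (fun k : Fin m => s k) := by
    rw [Fintype.linearIndependent_iff]
    intro g hg
    by_contra hcon
    push Not at hcon
    -- largest index with g ≠ 0
    obtain ⟨k, hk, hmax⟩ := (univ.filter fun k : Fin m => g k ≠ 0).exists_max_image
      (fun k => (k : ℕ)) (by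
        obtain ⟨k, hk⟩ := hcon
        exact ⟨k, mem_filter.2 ⟨mem_univ _, hk⟩⟩)
    have hgk : g k ≠ 0 := (mem_filter.1 hk).2
    obtain ⟨D, hD⟩ := hsurj k k.2
    have h1 : ∑ k' : Fin m, g k' * ∑ v, s k' v * w D v = 0 := by
      have h2 : ∑ v, (∑ k' : Fin m, g k' • s k') v * w D v = 0 := by
        rw [hg]
        simp
      rw [← h2]
      simp only [Finset.sum_apply, Pi.smul_apply, smul_eq_mul, sum_mul, mul_sum]
      rw [sum_comm]
      exact sum_congr rfl fun v _ => sum_congr rfl fun k' _ => by ring
    rw [sum_eq_single k] at h1
    · rcases mul_eq_zero.1 h1 with h | h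
      · exact hgk h
      · have := (htri D).2
        rw [hD] at this
        exact this h
    · intro k' _ hne
      by_cases hlt : (k' : ℕ) < k
      · rw [(htri D).1 k' (by rw [hD]; exact hlt), mul_zero]
      · have : g k' = 0 := by
          by_contra h
          have h3 := hmax k' (mem_filter.2 ⟨mem_univ _, h⟩)
          have h4 : (k' : ℕ) ≠ k := fun e => hne (Fin.ext e)
          omega
        rw [this, zero_mul]
    · intro h
      exact absurd (mem_univ k) h
  have hfr : Module.finrank F (V → F) = Fintype.card V := Module.finrank_fintype_fun_eq_card F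
  have hmn : m ≤ Fintype.card V := by
    have := hind.fintype_card_le_finrank
    rwa [hfr, Fintype.card_fin] at this
  refine ⟨hmn, ?_⟩
  obtain ⟨f, hf, hfi⟩ := extend_indep (Fintype.card V) hfr (Fintype.card V - m) m s (by omega) hind
  have hspan : ⊤ ≤ Submodule.span F (Set.range fun k : Fin (Fintype.card V) => f k) := by
    rw [hfi.span_eq_top_of_card_eq_finrank' (by rw [hfr, Fintype.card_fin])]
  let b : Module.Basis (Fin (Fintype.card V)) F (V → F) := Module.Basis.mk hfi hspan
  have hb : ∀ k, b k = f k := fun k => Module.Basis.mk_apply _ _ _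
  let Q : Matrix (Fin (Fintype.card V)) V F := fun k v => f k v
  let B : Matrix V (Fin (Fintype.card V)) F := fun v k => b.repr (Pi.single v 1) k
  have hBQ : B * Q = 1 := by
    ext v v'
    rw [Matrix.mul_apply]
    have h1 := b.sum_repr (Pi.single v (1 : F))
    have h2 := congrFun h1 v'
    rw [Finset.sum_apply] at h2
    have h3 : ∑ j, B v j * Q j v' = ∑ c, ((b.repr (Pi.single v (1 : F))) c • b c) v' := by
      refine sum_congr rfl fun k _ => ?_
      rw [Pi.smul_apply, smul_eq_mul, hb]
    rw [h3, h2, Matrix.one_apply]
    by_cases hvv : v = v'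
    · subst hvv
      simp
    · rw [if_neg hvv, Pi.single_eq_of_ne (Ne.symm hvv)]
  refine ⟨B, Q, ?_, hBQ, ?_⟩
  · exact (Matrix.mul_eq_one_comm_of_card_eq _ _ _ (by rw [Fintype.card_fin])).1 hBQ
  · intro k hk
    show (fun v => f k v) = s k
    rw [hf k hk]

end Pool.Agent.Xu.H50
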